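import Pool.Agent.AEC.StmtsB

/-!
# Squad AEC, row DLM (direct limits)
-/

open FirstOrder FirstOrder.Language Cardinal Set

universe u

namespace Pool.Agent.AEC.H41

theorem dlm (dir : DirStmt.{u}) : DlmStmt.{u} := by
  intro L κ K ι _ _ _ F m m1 m2
  let f : ∀ i j, i ≤ j → (F i).α ↪[L] (F j).α := fun i j h => (m i j h).toEmb
  have hds : DirectedSystem (fun i => (F i).α) (fun i j h => f i j h) :=
    ⟨fun i x => m1 i x, fun k j i hij hjk x => m2 i j k hij hjk x⟩
  let G := FirstOrder.Language.DirectLimit (fun i => (F i).α) f
  let s : ∀ i, (F i).α ↪[L] G := fun i => FirstOrder.Language.DirectLimit.of L ι (fun i => (F i).α) f i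
  have hs : ∀ i j (h : i ≤ j) x, s j (f i j h x) = s i x := fun i j h x => FirstOrder.Language.DirectLimit.of_f
  let S : ι → L.Substructure G := fun i => (s i).toHom.range
  have mono : Monotone S := by
    rintro i j h _ ⟨x, rfl⟩
    exact ⟨f i j h x, hs i j h x⟩
  have hmem : ∀ i, K.mem (S i) := fun i =>
    K.cod (K.iso (F i).prop (s i).equivRange)
  have hemb : ∀ i j (h : i ≤ j), K.emb (Substructure.inclusion (mono h)) := by
    intro i j h
    have e : Substructure.inclusion (mono h) =
        ((s j).equivRange.toEmbedding.comp (f i j h)).comp (s i).equivRange.symm.toEmbedding := by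
      ext x
      obtain ⟨y, hy⟩ := (s i).equivRange.surjective x
      subst hy
      have h1 : (s i).equivRange.symm.toEmbedding ((s i).equivRange y) = y :=
        (s i).equivRange.symm_apply_apply y
      show (((s i).equivRange y : S i) : G) = ((s j).equivRange (f i j h
        ((s i).equivRange.symm.toEmbedding ((s i).equivRange y))) : G)
      rw [h1]
      exact (hs i j h y).symm
    rw [e]
    exact K.comp (K.iso (hmem i) _) (K.comp (m i j h).emb (K.iso (F j).prop _))
  have htop : ⨆ i, S i = ⊤ := FirstOrder.Language.DirectLimit.iSup_range_of_eq_top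
  have hG : ∀ i, K.emb (S i).subtype := by
    intro i
    have h1 := dir L κ K G ι S mono hemb i
    have key : ∀ (T : L.Substructure G) (hT : T = ⊤) (h : S i ≤ T),
        K.emb (Substructure.inclusion h) → K.emb (S i).subtype := by
      intro T hT h hh
      subst hT
      have e : (S i).subtype =
          (Substructure.topEquiv : (⊤ : L.Substructure G) ≃[L] G).toEmbedding.comp
            (Substructure.inclusion h) := by
        ext x
        rfl
      rw [e]
      exact K.comp hh (K.iso (K.cod hh) _)
    exact key _ htop _ h1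
  have hsi : ∀ i, K.emb (s i) := by
    intro i
    have e : s i = (S i).subtype.comp (s i).equivRange.toEmbedding := by
      ext x
      rfl
    rw [e]
    exact K.comp (K.iso (F i).prop _) (hG i)
  obtain ⟨i0⟩ := ‹Nonempty ι›
  refine ⟨⟨G, K.cod (hsi i0)⟩, fun i => ⟨s i, hsi i⟩, fun i j h x => hs i j h x, ?_⟩
  intro y
  obtain ⟨i, x, hx⟩ := FirstOrder.Language.DirectLimit.exists_of (L := L) (G := fun i => (F i).α) (f := f) y
  exact ⟨i, x, hx⟩

end Pool.Agent.AEC.H41
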