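import Pool.Agent.AEC.StmtsB

/-!
# Squad AEC, row FIN (systems indexed by finite subsets)
-/

open FirstOrder FirstOrder.Language Cardinal Set

universe u

namespace Pool.Agent.AEC.H41

section aux

variable {L : FirstOrder.Language.{u, u}} {κ : Cardinal.{u}}

theorem incl_congr (K : AEC L κ) {U : Type u} [L.Structure U] {S S' T T' : L.Substructure U}
    (hS : S = S') (hT : T = T') (h : S ≤ T) (h' : S' ≤ T')
    (he : K.emb (Substructure.inclusion h)) : K.emb (Substructure.inclusion h') := by
  subst hS
  subst hT
  exact he

variable {U : Type u} [L.Structure U] {I : Type u} (M : Finset I → L.Substructure U)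
  (mono : Monotone M)

include mono in
theorem mem_unionOver (A : Set I) (x : U) :
    x ∈ unionOver M A ↔ ∃ s : Finset I, (s : Set I) ⊆ A ∧ x ∈ M s := by
  classical
  have hne : Nonempty {s : Finset I // (s : Set I) ⊆ A} := ⟨⟨∅, by simp⟩⟩
  have hd : Directed (· ≤ ·) (fun s : {s : Finset I // (s : Set I) ⊆ A} => M s) := by
    rintro ⟨s, hs⟩ ⟨t, ht⟩
    refine ⟨⟨s ∪ t, ?_⟩, mono Finset.subset_union_left, mono Finset.subset_union_right⟩
    rw [Finset.coe_union]
    exact Set.union_subset hs ht
  unfold unionOver
  rw [Substructure.mem_iSup_of_directed hd]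
  constructor
  · rintro ⟨⟨s, hs⟩, hx⟩
    exact ⟨s, hs, hx⟩
  · rintro ⟨s, hs, hx⟩
    exact ⟨⟨s, hs⟩, hx⟩

include mono in
theorem unionOver_finite (A : Set I) (hA : A.Finite) : unionOver M A = M hA.toFinset := by
  ext x
  rw [mem_unionOver M mono]
  constructor
  · rintro ⟨s, hs, hx⟩
    refine mono ?_ hx
    intro a ha
    exact hA.mem_toFinset.2 (hs ha)
  · intro hx
    exact ⟨hA.toFinset, by simp, hx⟩

/-- a nonempty chain of substructures `unionOver M (D w)` whose members cover all finite subsets
of `A` -/
theorem iSup_unionOver {W : Type u} [LinearOrder W] [Nonempty W] (D : W → Set I)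
    (mono : Monotone M) (A : Set I) (hA : ∀ w, D w ⊆ A)
    (hf : ∀ s : Finset I, (s : Set I) ⊆ A → ∃ w, (s : Set I) ⊆ D w) :
    ⨆ w, unionOver M (D w) = unionOver M A := by
  apply le_antisymm
  · exact iSup_le fun w => unionOver_mono M (hA w)
  · intro x hx
    obtain ⟨s, hs, hx⟩ := (mem_unionOver M mono A x).1 hx
    obtain ⟨w, hw⟩ := hf s hs
    have h1 : x ∈ unionOver M (D w) := (mem_unionOver M mono (D w) x).2 ⟨s, hw, hx⟩
    exact (le_iSup (fun w => unionOver M (D w)) w) h1

end aux

theorem fin_ (rel : RelStmt.{u}) : FinStmt.{u} := by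
  intro L κ K U _ I M mono hemb
  classical
  have main : ∀ c : Cardinal.{u}, ∀ (A B : Set I) (h : A ⊆ B), #B = c →
      K.emb (Substructure.inclusion (unionOver_mono M h)) := by
    intro c
    induction c using WellFoundedLT.induction with
    | _ c ih =>
      intro A B h hB
      by_cases hfin : B.Finite
      · have hA : A.Finite := hfin.subset h
        have h0 : hA.toFinset ≤ hfin.toFinset := Set.Finite.toFinset_subset_toFinset.2 h
        exact incl_congr K (unionOver_finite M mono A hA).symm (unionOver_finite M mono B hfin).symm
          (mono h0) _ (hemb _ _ h0)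
      · have hinf : ℵ₀ ≤ c := by
          rw [← hB]
          exact Cardinal.infinite_iff.1 (Set.infinite_coe_iff.2 hfin)
        let W := c.ord.ToType
        have hWn : NoMaxOrder W := Cardinal.noMaxOrder hinf
        have hWne : Nonempty W := by
          rw [← Cardinal.mk_ne_zero_iff]
          show #(c.ord.ToType) ≠ 0
          rw [Cardinal.mk_ord_toType]
          exact (Cardinal.aleph0_pos.trans_le hinf).ne'
        obtain ⟨e⟩ : Nonempty (W ≃ B) := Cardinal.eq.1 (by
          show #(c.ord.ToType) = #B
          rw [Cardinal.mk_ord_toType, hB])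
        let D : Set I → W → Set I := fun A w => {x | x ∈ A ∧ ∃ v < w, (e v : I) = x}
        have hDmono : ∀ A, Monotone (D A) := by
          rintro A v w hvw x ⟨hx, u, hu, rfl⟩
          exact ⟨hx, u, hu.trans_le hvw, rfl⟩
        have hDsub : ∀ A w, D A w ⊆ A := fun A w x hx => hx.1
        have hDcard : ∀ A w, #(D A w) < c := by
          intro A w
          have h1 : D A w ⊆ (fun v => (e v : I)) '' (Set.Iio w) := by
            rintro x ⟨_, v, hv, rfl⟩
            exact ⟨v, hv, rfl⟩
          refine (Cardinal.mk_le_mk_of_subset h1).trans_lt (Cardinal.mk_image_le.trans_lt ?_)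
          exact Cardinal.mk_Iio_toType_ord_lt w
        -- every finite subset of `D A w`, `w` a limit, is below
        have hDlim : ∀ A w, Order.IsSuccLimit w → ∀ s : Finset I, (s : Set I) ⊆ D A w →
            ∃ v : Set.Iio w, (s : Set I) ⊆ D A v := by
          intro A w hw s
          induction s using Finset.induction_on with
          | empty =>
            intro _
            obtain ⟨j, hj⟩ := not_isMin_iff.1 hw.1
            exact ⟨⟨j, hj⟩, by simp⟩
          | insert a s ha ihs =>
            intro hs
            rw [Finset.coe_insert, Set.insert_subset_iff] at hs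
            obtain ⟨v, hv⟩ := ihs hs.2
            obtain ⟨haA, u, hu, hua⟩ := hs.1
            obtain ⟨u', hu', huu'⟩ := hw.lt_iff_exists_lt.1 hu
            refine ⟨⟨max v.1 u', max_lt v.2 hu'⟩, ?_⟩
            rw [Finset.coe_insert, Set.insert_subset_iff]
            refine ⟨⟨haA, u, huu'.trans_le (le_max_right _ _), hua⟩, hv.trans ?_⟩
            exact hDmono A (le_max_left _ _)
        have hDsup : ∀ A, A ⊆ B → ∀ s : Finset I, (s : Set I) ⊆ A →
            ∃ w, (s : Set I) ⊆ D A w := by
          intro A hAB s
          induction s using Finset.induction_on with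
          | empty =>
            intro _
            exact ⟨Classical.choice hWne, by simp⟩
          | insert a s ha ihs =>
            intro hs
            rw [Finset.coe_insert, Set.insert_subset_iff] at hs
            obtain ⟨v, hv⟩ := ihs hs.2
            obtain ⟨u', hu'⟩ := exists_gt (e.symm ⟨a, hAB hs.1⟩)
            refine ⟨max v u', ?_⟩
            rw [Finset.coe_insert, Set.insert_subset_iff]
            refine ⟨⟨hs.1, e.symm ⟨a, hAB hs.1⟩, hu'.trans_le (le_max_right _ _), by simp⟩,
              hv.trans (hDmono A (le_max_left _ _))⟩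
        have hSmono : ∀ A, Monotone fun w => unionOver M (D A w) := fun A v w hvw =>
          unionOver_mono M (hDmono A hvw)
        have hScont : ∀ A w, Order.IsSuccLimit w →
            unionOver M (D A w) = ⨆ v : Set.Iio w, unionOver M (D A v) := by
          intro A w hw
          obtain ⟨j, hj⟩ := not_isMin_iff.1 hw.1
          have hne : Nonempty (Set.Iio w) := ⟨⟨j, hj⟩⟩
          exact (iSup_unionOver M (fun v : Set.Iio w => D A v) mono
            (D A w) (fun v => hDmono A (le_of_lt v.2)) (hDlim A w hw)).symm
        have hSsup : ∀ A, A ⊆ B → ⨆ w, unionOver M (D A w) = unionOver M A := fun A hAB =>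
          iSup_unionOver M (D A) mono A (hDsub A) (hDsup A hAB)
        -- the chain for `B`
        have hB1 : ∀ w, K.emb (Substructure.inclusion (unionOver_mono M (hDsub B w))) := by
          intro w
          have h1 := K.chain (fun w => unionOver M (D B w)) (hSmono B)
            (fun v w hvw => ih _ (hDcard B w) (D B v) (D B w) (hDmono B hvw) rfl) (hScont B) w
          exact incl_congr K rfl (hSsup B subset_rfl) _ _ h1
        have hA1 : ∀ w, K.emb (Substructure.inclusion (unionOver_mono M ((hDsub A w).trans h))) := by
          intro w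
          have hAB : D A w ⊆ D B w := fun x hx => ⟨h hx.1, hx.2⟩
          have h1 := ih _ (hDcard B w) (D A w) (D B w) hAB rfl
          have h2 := K.comp h1 (hB1 w)
          have h3 : (Substructure.inclusion (unionOver_mono M (hDsub B w))).comp
              (Substructure.inclusion (unionOver_mono M hAB)) =
              Substructure.inclusion (unionOver_mono M ((hDsub A w).trans h)) := by
            ext x
            rfl
          rw [h3] at h2
          exact h2
        have h4 := rel L κ K U W (fun w => unionOver M (D A w)) (unionOver M B) (hSmono A)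
          (fun w => unionOver_mono M ((hDsub A w).trans h)) hA1 (hScont A)
        exact incl_congr K (hSsup A h) rfl _ _ h4
  intro A B h
  exact main _ A B h rfl

end Pool.Agent.AEC.H41
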