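import Pool.Agent.AEC.StmtsB

/-!
# Squad AEC, row HNF (Hanf numbers)
-/

open FirstOrder FirstOrder.Language Cardinal Set

universe u

namespace Pool.Agent.AEC.H41

theorem hnf (sml : SmlStmt.{u}) (lng : LngStmt.{u}) : HnfStmt.{u} := by
  intro κ
  classical
  let T := Σ F : ℕ → Set κ.out, Σ R : ℕ → Set κ.out, AEC (codeLang F R) κ
  have hsm : ∀ F R : ℕ → Set κ.out, Small.{u} (AEC (codeLang F R) κ) := fun F R => sml _ κ
  have hT : Small.{u} T := inferInstance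
  let b : T → Cardinal.{u} := fun t =>
    if h : ∃ m : Cardinal.{u}, ∀ l, t.2.2.Cat l → l ≤ m then h.choose else 0
  let b' : T → Cardinal.{u} := fun t =>
    if h : ∃ m : Cardinal.{u}, ∀ l, (∃ M : t.2.2.Mod, #M.α = l) → l ≤ m then h.choose else 0
  obtain ⟨B, hB⟩ : BddAbove (Set.range b) := Cardinal.bddAbove_of_small
  obtain ⟨B', hB'⟩ : BddAbove (Set.range b') := Cardinal.bddAbove_of_small
  refine ⟨Order.succ (max B B'), fun L K => ?_⟩
  obtain ⟨F, R, K0, h0⟩ := lng L κ K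
  constructor
  · rintro ⟨l, hl, hc⟩ m
    by_contra hcon
    push Not at hcon
    have hb : ∃ m : Cardinal.{u}, ∀ l, K0.Cat l → l ≤ m :=
      ⟨m, fun l' hl' => le_of_not_ge fun hh => hcon l' hh ((h0 l').1.2 hl')⟩
    have h1 : b ⟨F, R, K0⟩ = hb.choose := dif_pos hb
    have h2 : l ≤ b ⟨F, R, K0⟩ := by
      rw [h1]
      exact hb.choose_spec l ((h0 l).1.1 hc)
    have h3 : b ⟨F, R, K0⟩ ≤ B := hB ⟨_, rfl⟩
    exact absurd (hl.trans (h2.trans (h3.trans (le_max_left B B')))) (not_le.2 (Order.lt_succ _))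
  · rintro ⟨M, hM⟩ m
    by_contra hcon
    push Not at hcon
    have hb : ∃ m : Cardinal.{u}, ∀ l, (∃ M : K0.Mod, #M.α = l) → l ≤ m :=
      ⟨m, fun l' hl' => by
        obtain ⟨N, hN⟩ := (h0 l').2.2 hl'
        rw [← hN]
        exact (hcon N).le⟩
    have h1 : b' ⟨F, R, K0⟩ = hb.choose := dif_pos hb
    have h2 : #M.α ≤ b' ⟨F, R, K0⟩ := by
      rw [h1]
      exact hb.choose_spec _ ((h0 _).2.1 ⟨M, rfl⟩)
    have h3 : b' ⟨F, R, K0⟩ ≤ B' := hB' ⟨_, rfl⟩
    exact absurd (hM.trans (h2.trans (h3.trans (le_max_right B B')))) (not_le.2 (Order.lt_succ _))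

end Pool.Agent.AEC.H41
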