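import Pool.Agent.AEC.StmtsB

/-!
# Squad AEC, row TRC (transfinite chains)
-/

open FirstOrder FirstOrder.Language Cardinal Set CategoryTheory CategoryTheory.Limits

universe u

namespace Pool.Agent.AEC.H41

variable {L : FirstOrder.Language.{u, u}} {κ : Cardinal.{u}}

/-- the members of the class under `A0` -/
structure Und (K : AEC L κ) (A0 : K.Mod) : Type (u + 1) where
  A : K.Mod
  e : K.Hom A0 A

/-- the maps under `A0` -/
structure UHom {K : AEC L κ} {A0 : K.Mod} (X Y : Und K A0) : Type u where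
  f : K.Hom X.A Y.A
  h : ∀ x, f (X.e x) = Y.e x

variable {K : AEC L κ} {A0 : K.Mod}

theorem UHom.ext' {X Y : Und K A0} {f g : UHom X Y} (h : ∀ x, f.f x = g.f x) : f = g := by
  obtain ⟨f, hf⟩ := f
  obtain ⟨g, hg⟩ := g
  have : f = g := AEC.Hom.ext h
  subst this
  rfl

instance : Category.{u} (Und K A0) where
  Hom X Y := UHom X Y
  id X := ⟨AEC.Hom.id X.A, fun _ => rfl⟩
  comp f g := ⟨g.f.comp f.f, fun x => by
    rw [AEC.Hom.comp_apply, f.h, g.h]⟩
  id_comp f := UHom.ext' fun _ => rfl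
  comp_id f := UHom.ext' fun _ => rfl
  assoc f g h := UHom.ext' fun _ => rfl

theorem comp_f {X Y Z : Und K A0} (f : X ⟶ Y) (g : Y ⟶ Z) (x : X.A.α) :
    (f ≫ g).f x = g.f (f.f x) := rfl

theorem id_f {X : Und K A0} (x : X.A.α) : (𝟙 X : X ⟶ X).f x = x := rfl

theorem hext {X Y : Und K A0} {f g : X ⟶ Y} (h : ∀ x, f.f x = g.f x) : f = g := UHom.ext' h

variable {J : Type u} [LinearOrder J] [Nonempty J]

theorem exists_colim (dlm : DlmStmt.{u}) (dlu : DluStmt.{u}) (G : J ⥤ Und K A0) :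
    ∃ c : Cocone G, Nonempty (IsColimit c) ∧ ∀ y : c.pt.A.α, ∃ i x, (c.ι.app i).f x = y := by
  obtain ⟨i0⟩ := ‹Nonempty J›
  have hne : Nonempty J := ⟨i0⟩
  let m : ∀ i j : J, i ≤ j → K.Hom (G.obj i).A (G.obj j).A := fun i j h => (G.map (homOfLE h)).f
  have m1 : ∀ i x, m i i le_rfl x = x := by
    intro i x
    show (G.map (homOfLE (le_refl i))).f x = x
    have : G.map (homOfLE (le_refl i)) = 𝟙 (G.obj i) := G.map_id i
    rw [this]
    rfl
  have m2 : ∀ i j k (hij : i ≤ j) (hjk : j ≤ k) x,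
      m j k hjk (m i j hij x) = m i k (hij.trans hjk) x := by
    intro i j k hij hjk x
    show (G.map (homOfLE hjk)).f ((G.map (homOfLE hij)).f x) = (G.map (homOfLE (hij.trans hjk))).f x
    have : G.map (homOfLE (hij.trans hjk)) = G.map (homOfLE hij) ≫ G.map (homOfLE hjk) := by
      rw [← G.map_comp]
      rfl
    rw [this]
    rfl
  have me : ∀ i j (h : i ≤ j) x, m i j h ((G.obj i).e x) = (G.obj j).e x := fun i j h x =>
    (G.map (homOfLE h)).h x
  obtain ⟨D, s, hs, hsurj⟩ := dlm L κ K J (fun i => (G.obj i).A) m m1 m2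
  have hse : ∀ i j x, s i ((G.obj i).e x) = s j ((G.obj j).e x) := by
    intro i j x
    rcases le_total i j with h | h
    · rw [← me i j h, hs]
    · rw [← me j i h, hs]
  let P : Und K A0 := ⟨D, (s i0).comp (G.obj i0).e⟩
  let t : ∀ i, G.obj i ⟶ P := fun i => ⟨s i, fun x => hse i i0 x⟩
  let c : Cocone G := ⟨P, ⟨fun i => t i, by
    intro i j f
    refine hext fun x => ?_
    have h1 : f = homOfLE (leOfHom f) := rfl
    show s j ((G.map f).f x) = s i x
    exact hs i j (leOfHom f) x⟩⟩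
  have desc : ∀ c' : Cocone G, ∃ w : P ⟶ c'.pt, ∀ i x, w.f (s i x) = (c'.ι.app i).f x := by
    intro c'
    obtain ⟨w, hw⟩ := dlu L κ K J (fun i => (G.obj i).A) D s
      (fun i j hij x => ⟨m i j hij x, hs i j hij x⟩) hsurj c'.pt.A (fun i => (c'.ι.app i).f) (by
        intro i j hij x y hxy
        have h1 : y = m i j hij x := (s j).injective (by rw [hxy, hs])
        rw [h1]
        have h2 := c'.w (homOfLE hij)
        have h3 := congrArg (fun f : G.obj i ⟶ c'.pt => f.f x) h2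
        exact h3)
    exact ⟨⟨w, fun x => by
      show w (s i0 ((G.obj i0).e x)) = c'.pt.e x
      rw [hw]
      exact (c'.ι.app i0).h x⟩, hw⟩
  choose w hw using desc
  refine ⟨c, ⟨⟨fun c' => w c', ?_, ?_⟩⟩, ?_⟩
  · intro c' i
    exact hext fun x => hw c' i x
  · intro c' g hg
    refine hext fun y => ?_
    obtain ⟨i, x, rfl⟩ := hsurj y
    have h1 := congrArg (fun f : G.obj i ⟶ c'.pt => f.f x) (hg i)
    exact h1.trans (hw c' i x).symm
  · intro y
    exact hsurj y

theorem jsurj (dlm : DlmStmt.{u}) (dlu : DluStmt.{u}) (G : J ⥤ Und K A0) (c : Cocone G)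
    (hc : IsColimit c) (y : c.pt.A.α) : ∃ i x, (c.ι.app i).f x = y := by
  obtain ⟨c0, ⟨h0⟩, hs⟩ := exists_colim dlm dlu G
  let w : c.pt ⟶ c0.pt := hc.desc c0
  let v : c0.pt ⟶ c.pt := h0.desc c
  have h1 : w ≫ v = 𝟙 c.pt := by
    apply hc.hom_ext
    intro j
    rw [← Category.assoc, hc.fac, h0.fac, Category.comp_id]
  obtain ⟨i, x, hx⟩ := hs (w.f y)
  refine ⟨i, x, ?_⟩
  have h2 : (c.ι.app i).f x = v.f ((c0.ι.app i).f x) := by
    rw [← comp_f, h0.fac]
  rw [h2, hx, ← comp_f, h1]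
  rfl

theorem hasColim (dlm : DlmStmt.{u}) (dlu : DluStmt.{u}) :
    HasColimitsOfShape J (Und K A0) := by
  refine ⟨fun G => ?_⟩
  obtain ⟨c0, ⟨h0⟩, hs⟩ := exists_colim dlm dlu G
  exact ⟨⟨⟨c0, h0⟩⟩⟩

/-- what a step does -/
def Good (Q : K.Mod → Prop) (R : ∀ A B : K.Mod, K.Hom A0 A → K.Hom A B → Prop) :
    MorphismProperty (Und K A0) := fun X Y f => Q X.A → Q Y.A ∧ R X.A Y.A X.e f.f

theorem trc (dlm : DlmStmt.{u}) (dlu : DluStmt.{u}) : TrcStmt.{u} := by
  intro L κ K A0 Q R J _ _ _ c hJ hcc hQ0 hstep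
  classical
  letI : SuccOrder J := SuccOrder.ofLinearWellFoundedLT J
  letI : OrderBot J := WellFoundedLT.toOrderBot J
  have hstep' : ∀ X : Und K A0, ∃ (Y : Und K A0) (f : X ⟶ Y), Good Q R f := by
    intro X
    by_cases hX : Q X.A
    · obtain ⟨B, f, hB, hR⟩ := hstep X.A X.e hX
      exact ⟨⟨B, f.comp X.e⟩, ⟨f, fun _ => rfl⟩, fun _ => ⟨hB, hR⟩⟩
    · exact ⟨X, 𝟙 X, fun h => absurd h hX⟩
  choose succ toSucc hsucc using hstep'
  let Φ : SmallObject.SuccStruct (Und K A0) := ⟨⟨A0, AEC.Hom.id A0⟩, succ, toSucc⟩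
  have hprop : ∀ {X Y : Und K A0} (f : X ⟶ Y), Φ.prop f → Good Q R f := by
    rintro X Y f ⟨⟩
    exact hsucc _
  haveI : HasIterationOfShape J (Und K A0) :=
    { hasColimitsOfShape_of_isSuccLimit := by
        intro j hj
        obtain ⟨i, hi⟩ := not_isMin_iff.1 hj.1
        haveI : Nonempty (Set.Iio j) := ⟨⟨i, hi⟩⟩
        exact hasColim dlm dlu
      hasColimitsOfShape := hasColim dlm dlu }
  let F : J ⥤ Und K A0 := Φ.iterationFunctor J
  have hbot : F.obj ⊥ = ⟨A0, AEC.Hom.id A0⟩ := (Φ.iter ⊥).obj_bot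
  have hQ : ∀ j, Q (F.obj j).A := by
    intro j
    induction j using SuccOrder.limitRecOn with
    | isMin j hj =>
      have h1 : j = ⊥ := hj.eq_bot
      subst h1
      rw [hbot]
      exact hQ0
    | succ j hj ih =>
      exact (hprop _ (Φ.prop_iterationFunctor_map_succ j hj) ih).1
    | isSuccLimit j hj ih =>
      obtain ⟨i, hi⟩ := not_isMin_iff.1 hj.1
      haveI : Nonempty (Set.Iio j) := ⟨⟨i, hi⟩⟩
      haveI : NoMaxOrder (Set.Iio j) := ⟨fun a => by
        obtain ⟨b, hb, hab⟩ := hj.lt_iff_exists_lt.1 a.2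
        exact ⟨⟨b, hb⟩, hab⟩⟩
      have hcol := F.isColimitOfIsWellOrderContinuous j hj
      refine hcc (Set.Iio j) (hJ j) (fun a => (F.obj a).A)
        (fun a b h => (F.map (homOfLE h)).f) (F.obj j).A (fun a => (F.map (homOfLE (le_of_lt a.2))).f)
        ?_ ?_ (fun a => ih a a.2)
      · intro a b h x
        have h1 : F.map (homOfLE h) ≫ F.map (homOfLE (le_of_lt b.2)) =
            F.map (homOfLE (le_of_lt a.2)) := by
          rw [← F.map_comp]
          rfl
        exact congrArg (fun f : F.obj a ⟶ F.obj j => f.f x) h1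
      · intro y
        exact jsurj dlm dlu _ _ hcol y
  refine ⟨fun j => (F.obj j).A, fun i j h => (F.map (homOfLE h)).f, fun i => (F.obj i).e,
    ?_, ?_, fun i j h x => (F.map (homOfLE h)).h x, hQ, ?_⟩
  · intro i x
    have h1 : F.map (homOfLE (le_refl i)) = 𝟙 (F.obj i) := F.map_id i
    exact congrArg (fun f : F.obj i ⟶ F.obj i => f.f x) h1
  · intro i j k hij hjk x
    have h1 : F.map (homOfLE hij) ≫ F.map (homOfLE hjk) = F.map (homOfLE (hij.trans hjk)) := by
      rw [← F.map_comp]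
      rfl
    exact congrArg (fun f : F.obj i ⟶ F.obj k => f.f x) h1
  · intro i j h
    have hi : ¬ IsMax i := fun hh => absurd h.lt (not_lt.2 (hh h.le))
    have h1 : Order.succ i = j := Order.succ_eq_of_covBy h
    subst h1
    exact (hprop _ (Φ.prop_iterationFunctor_map_succ i hi) (hQ i)).2

end Pool.Agent.AEC.H41
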